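import Pool.Agent.helper23.RK.Base

/-!
# MP_6e2074_an, module L: trivial group, the converse direction, and the unital case
-/

open Filter Topology
open scoped CStarAlgebra ComplexOrder MultiplierAlgebra

namespace Pool.Agent.helper23.RK

universe u v

/-- Uniformly Lipschitz maps that converge on a dense set converge everywhere. -/
theorem tendsto_of_denseRange {E F : Type*} [SeminormedAddCommGroup E] [SeminormedAddCommGroup F]
    {ι : Type*} {D : ι → E} (hD : DenseRange D) (T : ℕ → E → F) (L : E → F) (C : ℝ)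
    (hT : ∀ n a b, ‖T n a - T n b‖ ≤ C * ‖a - b‖) (hL : ∀ a b, ‖L a - L b‖ ≤ C * ‖a - b‖)
    (h : ∀ i, Tendsto (fun n => T n (D i)) atTop (𝓝 (L (D i)))) (a : E) :
    Tendsto (fun n => T n a) atTop (𝓝 (L a)) := by
  rw [Metric.tendsto_atTop]
  intro ε hε
  set C' : ℝ := max C 1 with hC'
  have hC1 : 1 ≤ C' := le_max_right _ _
  have hC0 : 0 < C' := lt_of_lt_of_le one_pos hC1
  obtain ⟨i, hi⟩ := hD.exists_dist_lt a (ε := ε / (4 * C')) (by positivity)
  rw [dist_eq_norm] at hi
  have h1 : C * ‖a - D i‖ ≤ ε / 4 := by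
    calc C * ‖a - D i‖ ≤ C' * ‖a - D i‖ := by gcongr; exact le_max_left _ _
      _ ≤ C' * (ε / (4 * C')) := by gcongr
      _ = ε / 4 := by field_simp
  obtain ⟨N, hN⟩ := (Metric.tendsto_atTop.mp (h i)) (ε / 4) (by positivity)
  refine ⟨N, fun n hn => ?_⟩
  have h2 := hN n hn
  rw [dist_eq_norm] at h2 ⊢
  have h3 := hT n a (D i)
  have h4 := hL a (D i)
  have h5 : T n a - L a = (T n a - T n (D i)) + (T n (D i) - L (D i)) - (L a - L (D i)) := by abel
  rw [h5]
  calc ‖(T n a - T n (D i)) + (T n (D i) - L (D i)) - (L a - L (D i))‖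
      ≤ ‖(T n a - T n (D i)) + (T n (D i) - L (D i))‖ + ‖L a - L (D i)‖ := norm_sub_le _ _
    _ ≤ ‖T n a - T n (D i)‖ + ‖T n (D i) - L (D i)‖ + ‖L a - L (D i)‖ := by
        gcongr; exact norm_add_le _ _
    _ < ε := by linarith

section

variable {A : Type u} [NonUnitalCStarAlgebra A] [PartialOrder A] [StarOrderedRing A]

/-- A separable C*-algebra has a sequential approximate unit of positive contractions. -/
theorem exists_seq_approxUnit [TopologicalSpace.SeparableSpace A] :
    ∃ u : ℕ → A, (∀ n, 0 ≤ u n ∧ ‖u n‖ ≤ 1) ∧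
      (∀ a, Tendsto (fun n => u n * a) atTop (𝓝 a)) ∧
      (∀ a, Tendsto (fun n => a * u n) atTop (𝓝 a)) := by
  have hAU := CStarAlgebra.increasingApproximateUnit A
  have hne : (CStarAlgebra.approximateUnit A).NeBot := inferInstance
  set D : ℕ → A := TopologicalSpace.denseSeq A with hD
  have hex : ∀ n : ℕ, ∃ x : A, (0 ≤ x ∧ ‖x‖ ≤ 1) ∧ ∀ k ∈ Finset.range (n + 1),
      ‖x * D k - D k‖ < 1 / ((n : ℝ) + 1) ∧ ‖D k * x - D k‖ < 1 / ((n : ℝ) + 1) := by
    intro n
    have hpos : (0 : ℝ) < 1 / ((n : ℝ) + 1) := by positivity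
    have h1 : ∀ᶠ x in CStarAlgebra.approximateUnit A, ∀ k ∈ Finset.range (n + 1),
        ‖x * D k - D k‖ < 1 / ((n : ℝ) + 1) ∧ ‖D k * x - D k‖ < 1 / ((n : ℝ) + 1) := by
      rw [Filter.eventually_all_finset]
      intro k _
      have ha := (hAU.tendsto_mul_right (D k)).eventually (Metric.ball_mem_nhds _ hpos)
      have hb := (hAU.tendsto_mul_left (D k)).eventually (Metric.ball_mem_nhds _ hpos)
      filter_upwards [ha, hb] with x hx hy
      simp only [dist_eq_norm] at hx hy
      exact ⟨hx, hy⟩
    exact ((hAU.eventually_nonneg.and hAU.eventually_norm).and h1).exists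
  choose u hu1 hu2 using hex
  have hlim : Tendsto (fun n : ℕ => 1 / ((n : ℝ) + 1)) atTop (𝓝 0) :=
    tendsto_one_div_add_atTop_nhds_zero_nat
  refine ⟨u, hu1, ?_, ?_⟩
  · refine tendsto_of_denseRange (TopologicalSpace.denseRange_denseSeq A) (fun n a => u n * a)
      (fun a => a) 1 ?_ ?_ ?_
    · intro n a b
      rw [← mul_sub]
      exact (norm_mul_le _ _).trans (by gcongr; exact (hu1 n).2)
    · intro a b; rw [one_mul]
    · intro k
      rw [tendsto_iff_norm_sub_tendsto_zero]
      refine squeeze_zero' (Eventually.of_forall fun n => norm_nonneg _) ?_ hlim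
      filter_upwards [eventually_ge_atTop k] with n hn
      exact (hu2 n k (Finset.mem_range.mpr (by omega))).1.le
  · refine tendsto_of_denseRange (TopologicalSpace.denseRange_denseSeq A) (fun n a => a * u n)
      (fun a => a) 1 ?_ ?_ ?_
    · intro n a b
      rw [← sub_mul, one_mul]
      exact (norm_mul_le _ _).trans (mul_le_of_le_one_right (norm_nonneg _) (hu1 n).2)
    · intro a b; rw [one_mul]
    · intro k
      rw [tendsto_iff_norm_sub_tendsto_zero]
      refine squeeze_zero' (Eventually.of_forall fun n => norm_nonneg _) ?_ hlim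
      filter_upwards [eventually_ge_atTop k] with n hn
      exact (hu2 n k (Finset.mem_range.mpr (by omega))).2.le

theorem rok_of_subsingleton [TopologicalSpace.SeparableSpace A] {G : Type v} [Group G]
    [Fintype G] [Subsingleton G] (α : G →* (A ≃⋆ₐ[ℂ] A)) : RokDimLE α 1 := by
  obtain ⟨u, hu1, hu2, hu3⟩ := exists_seq_approxUnit (A := A)
  refine ⟨fun l _ n => if l = 0 then u n else 0, ?_, ?_, ?_, ?_⟩
  · intro l g
    by_cases hl : l = 0
    · subst hl
      refine ⟨fun n => by simpa using hu1 n, fun a => ?_⟩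
      simpa using (hu2 a).sub (hu3 a)
    · refine ⟨fun n => by simp [hl], fun a => ?_⟩
      simp [hl]
  · intro l g h a
    have hg : g = 1 := Subsingleton.elim _ _
    subst hg
    simp
  · intro l g h hgh
    exact absurd (Subsingleton.elim g h) hgh
  · intro a
    have huniv : (Finset.univ : Finset G) = {1} := by
      ext x; simp [Subsingleton.elim x 1]
    simp only [huniv, Finset.sum_singleton]
    simpa using hu2 a

omit [PartialOrder A] [StarOrderedRing A] in
theorem fst_mul_apply (m : 𝓜(ℂ, A)) (x y : A) : m.fst (x * y) = m.fst x * y := by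
  have key : ∀ z : A, z * (m.fst (x * y) - m.fst x * y) = 0 := by
    intro z
    rw [mul_sub, ← m.central z (x * y), ← mul_assoc z, ← m.central z x, mul_assoc, sub_self]
  have h := key (star (m.fst (x * y) - m.fst x * y))
  exact sub_eq_zero.mp ((CStarRing.star_mul_self_eq_zero_iff _).mp h)

theorem outer_of_rok (hs : IsSimple A) {G : Type v} [Group G] [Fintype G]
    (α : G →* (A ≃⋆ₐ[ℂ] A)) (d : ℕ) (h : RokDimLE α d) : PointwiseOuter α := by
  intro g hg hin
  obtain ⟨u, hu, hαu⟩ := hin
  obtain ⟨f, hf1, hf2, hf3, hf4⟩ := h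
  have hE : ∀ x b : A, α g x * b = u.fst (x * (star u).fst b) := by
    intro x b
    have := congrArg (fun m : 𝓜(ℂ, A) => m.fst b) (hαu x)
    simpa [mul_assoc] using this
  have huu : ∀ b : A, u.fst ((star u).fst b) = b := by
    intro b
    have h1 : u * star u = 1 := (Unitary.mem_iff.mp hu).2
    have := congrArg (fun m : 𝓜(ℂ, A) => m.fst b) h1
    simpa using this
  -- the claim
  have hclaim : ∀ l h (b : A), Tendsto (fun n => f l h n * (f l h n * b)) atTop (𝓝 0) := by
    intro l h b
    set c : A := (star u).fst b with hc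
    -- step 1
    have s1 : Tendsto (fun n => α g (f l h n) * b - b * f l h n) atTop (𝓝 0) := by
      have h1 := (u.fst.continuous.tendsto _).comp ((hf1 l h).2 c)
      rw [map_zero] at h1
      refine h1.congr fun n => ?_
      simp only [Function.comp_apply, map_sub]
      rw [hE, ← hc, fst_mul_apply, fst_mul_apply, huu]
    have s2 : Tendsto (fun n => f l h n * b - b * f l h n) atTop (𝓝 0) := (hf1 l h).2 b
    have s3 : Tendsto (fun n => (α g (f l h n) - f l (g * h) n) * b) atTop (𝓝 0) := hf2 l g h b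
    have s4 : Tendsto (fun n => f l (g * h) n * b - f l h n * b) atTop (𝓝 0) := by
      have h4 := (s1.sub s2).sub s3
      rw [sub_zero, sub_zero] at h4
      refine h4.congr fun n => ?_
      rw [sub_mul]; abel
    have s5 : Tendsto (fun n => f l h n * (f l (g * h) n * b - f l h n * b)) atTop (𝓝 0) := by
      rw [tendsto_zero_iff_norm_tendsto_zero] at s4 ⊢
      refine squeeze_zero (fun n => norm_nonneg _) (fun n => ?_) s4
      exact (norm_mul_le _ _).trans (mul_le_of_le_one_left (norm_nonneg _) ((hf1 l h).1 n).2)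
    have hne : h ≠ g * h := by
      intro e
      exact hg (by simpa using e.symm)
    have s6 : Tendsto (fun n => (f l h n * f l (g * h) n) * b) atTop (𝓝 0) := by
      have := hf3 l h (g * h) hne b
      simpa using this
    have s7 := s6.sub s5
    rw [sub_zero] at s7
    refine s7.congr fun n => ?_
    rw [mul_sub, mul_assoc]; abel
  have hzero : ∀ l h (b : A), Tendsto (fun n => f l h n * b) atTop (𝓝 0) := by
    intro l h b
    have h1 : Tendsto (fun n => ‖b‖ * ‖f l h n * (f l h n * b)‖) atTop (𝓝 0) := by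
      have := (tendsto_zero_iff_norm_tendsto_zero.mp (hclaim l h b)).const_mul ‖b‖
      simpa using this
    have h2 : Tendsto (fun n => ‖f l h n * b‖ ^ 2) atTop (𝓝 0) := by
      refine squeeze_zero (fun n => by positivity) (fun n => ?_) h1
      rw [sq, ← CStarRing.norm_star_mul_self, star_mul,
        (IsSelfAdjoint.of_nonneg ((hf1 l h).1 n).1).star_eq, mul_assoc]
      exact (norm_mul_le _ _).trans (by rw [norm_star])
    rw [tendsto_zero_iff_norm_tendsto_zero]
    have h3 := h2.sqrt
    simpa [Real.sqrt_sq] using h3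
  obtain ⟨a, ha⟩ := hs.1
  apply ha
  have h1 : Tendsto (fun n => (∑ l, ∑ g, f l g n) * a) atTop (𝓝 0) := by
    have : Tendsto (fun n => ∑ l, ∑ g, f l g n * a) atTop (𝓝 (∑ _l : Fin (d + 1), ∑ _g : G, 0)) :=
      tendsto_finsetSum _ fun l _ => tendsto_finsetSum _ fun g _ => hzero l g a
    simpa [Finset.sum_mul] using this
  exact tendsto_nhds_unique (hf4 a) h1

end

section Unital

theorem unitalRok_iff {B : Type u} [CStarAlgebra B] [PartialOrder B] [StarOrderedRing B]
    [TopologicalSpace.SeparableSpace B] {G : Type v} [Group G] [Fintype G]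
    (α : G →* (B ≃⋆ₐ[ℂ] B)) (d : ℕ) : UnitalRokDimLE α d ↔ RokDimLE α d := by
  classical
  constructor
  · intro h
    set D : ℕ → B := TopologicalSpace.denseSeq B with hD
    have hex : ∀ n : ℕ, ∃ f : Fin (d + 1) → G → B,
      (∀ l g, 0 ≤ f l g ∧ ‖f l g‖ ≤ 1) ∧
      (∀ l g h, ‖α g (f l h) - f l (g * h)‖ < 1 / ((n : ℝ) + 1)) ∧
      (∀ l g h, g ≠ h → ‖f l g * f l h‖ < 1 / ((n : ℝ) + 1)) ∧
      ‖(∑ l, ∑ g, f l g) - 1‖ < 1 / ((n : ℝ) + 1) ∧
      ∀ l g, ∀ a ∈ (Finset.range (n + 1)).image D, ‖f l g * a - a * f l g‖ < 1 / ((n : ℝ) + 1) :=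
      fun n => h _ _ (by positivity)
    choose f hf1 hf2 hf3 hf4 hf5 using hex
    have hlim : Tendsto (fun n : ℕ => 1 / ((n : ℝ) + 1)) atTop (𝓝 0) :=
      tendsto_one_div_add_atTop_nhds_zero_nat
    have hmul : ∀ (x : ℕ → B) (a : B), (∀ n, ‖x n‖ ≤ 1 / ((n : ℝ) + 1)) →
        Tendsto (fun n => x n * a) atTop (𝓝 0) := by
      intro x a hx
      rw [tendsto_zero_iff_norm_tendsto_zero]
      have h1 : Tendsto (fun n : ℕ => 1 / ((n : ℝ) + 1) * ‖a‖) atTop (𝓝 0) := by
        simpa using hlim.mul_const ‖a‖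
      refine squeeze_zero (fun n => norm_nonneg _) (fun n => ?_) h1
      exact (norm_mul_le _ _).trans (by gcongr; exact hx n)
    refine ⟨fun l g n => f n l g, ?_, ?_, ?_, ?_⟩
    · intro l g
      refine ⟨fun n => hf1 n l g, ?_⟩
      refine tendsto_of_denseRange (TopologicalSpace.denseRange_denseSeq B)
        (fun n a => f n l g * a - a * f n l g) (fun _ => 0) 2 ?_ ?_ ?_
      · intro n a b
        have e : f n l g * a - a * f n l g - (f n l g * b - b * f n l g) =
            f n l g * (a - b) - (a - b) * f n l g := by noncomm_ring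
        rw [e]
        have h1 : ‖f n l g * (a - b)‖ ≤ ‖a - b‖ :=
          (norm_mul_le _ _).trans (mul_le_of_le_one_left (norm_nonneg _) (hf1 n l g).2)
        have h2 : ‖(a - b) * f n l g‖ ≤ ‖a - b‖ :=
          (norm_mul_le _ _).trans (mul_le_of_le_one_right (norm_nonneg _) (hf1 n l g).2)
        have h3 := norm_sub_le (f n l g * (a - b)) ((a - b) * f n l g)
        linarith
      · intro a b; simp
      · intro k
        rw [tendsto_zero_iff_norm_tendsto_zero]
        refine squeeze_zero' (Eventually.of_forall fun n => norm_nonneg _) ?_ hlim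
        filter_upwards [eventually_ge_atTop k] with n hn
        exact (hf5 n l g (D k) (Finset.mem_image_of_mem _ (Finset.mem_range.mpr (by omega)))).le
    · intro l g h a
      exact hmul _ a fun n => (hf2 n l g h).le
    · intro l g h hgh a
      refine (hmul (fun n => f n l g * f n l h) a fun n => (hf3 n l g h hgh).le).congr fun n => ?_
      simp
    · intro a
      have h1 := hmul (fun n => (∑ l, ∑ g, f n l g) - 1) a fun n => (hf4 n).le
      have h2 := h1.add_const a
      rw [zero_add] at h2
      refine h2.congr fun n => ?_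
      rw [sub_mul, one_mul]; abel
  · rintro ⟨f, hf1, hf2, hf3, hf4⟩ F ε hε
    have e1 : ∀ᶠ n in atTop, ∀ l g h, ‖α g (f l h n) - f l (g * h) n‖ < ε := by
      rw [eventually_all]; intro l
      rw [eventually_all]; intro g
      rw [eventually_all]; intro h
      have h1 := (tendsto_zero_iff_norm_tendsto_zero.mp (hf2 l g h 1)).eventually_lt_const hε
      simpa using h1
    have e2 : ∀ᶠ n in atTop, ∀ l g h, g ≠ h → ‖f l g n * f l h n‖ < ε := by
      rw [eventually_all]; intro l
      rw [eventually_all]; intro g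
      rw [eventually_all]; intro h
      rw [eventually_imp_distrib_left]; intro hgh
      have h1 := (tendsto_zero_iff_norm_tendsto_zero.mp (hf3 l g h hgh 1)).eventually_lt_const hε
      simpa using h1
    have e3 : ∀ᶠ n in atTop, ‖(∑ l, ∑ g, f l g n) - 1‖ < ε := by
      have h1 := (tendsto_iff_norm_sub_tendsto_zero.mp (hf4 1)).eventually_lt_const hε
      simpa using h1
    have e4 : ∀ᶠ n in atTop, ∀ l g, ∀ a ∈ F, ‖f l g n * a - a * f l g n‖ < ε := by
      rw [eventually_all]; intro l
      rw [eventually_all]; intro g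
      rw [eventually_all_finset]; intro a _
      exact (tendsto_zero_iff_norm_tendsto_zero.mp ((hf1 l g).2 a)).eventually_lt_const hε
    obtain ⟨n, h1, h2, h3, h4⟩ := (e1.and (e2.and (e3.and e4))).exists
    exact ⟨fun l g => f l g n, fun l g => (hf1 l g).1 n, h1, h2, h3, h4⟩

end Unital

end Pool.Agent.helper23.RK
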