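import Mathlib

/-!
# MP_6e2074_an, module D: a consequence of the Toeplitz-Hausdorff theorem
-/

open Filter Topology
open scoped ComplexOrder

namespace Pool.Agent.helper23.RK

universe v

section D_TH
variable {H : Type v} [NormedAddCommGroup H] [InnerProductSpace ℂ H]

/-- There is a unimodular `z` for which `z * p + conj z * q` is real. -/
theorem exists_unimodular_real (p q : ℂ) :
    ∃ z : ℂ, ‖z‖ = 1 ∧ ∃ c : ℝ, z * p + (starRingEnd ℂ) z * q = (c : ℂ) := by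
  set w : ℂ := p - (starRingEnd ℂ) q with hw
  have main : ∀ z : ℂ, (z * w).im = 0 → ∃ c : ℝ, z * p + (starRingEnd ℂ) z * q = (c : ℂ) := by
    intro z hz
    refine ⟨(z * p + (starRingEnd ℂ) z * q).re, ?_⟩
    apply Complex.ext
    · simp
    · rw [Complex.ofReal_im]
      simp only [hw, Complex.mul_im, Complex.sub_re, Complex.sub_im, Complex.conj_re,
        Complex.conj_im, Complex.add_im] at hz ⊢
      linarith
  by_cases h0 : w = 0
  · exact ⟨1, by simp, main 1 (by simp [h0])⟩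
  · have hn : ‖w‖ ≠ 0 := norm_ne_zero_iff.mpr h0
    refine ⟨(starRingEnd ℂ) w / (‖w‖ : ℂ), ?_, main _ ?_⟩
    · rw [norm_div, RCLike.norm_conj, Complex.norm_real, norm_norm, div_self hn]
    · have : (starRingEnd ℂ) w / (‖w‖ : ℂ) * w = ((‖w‖ : ℝ) : ℂ) := by
        have hn' : (‖w‖ : ℂ) ≠ 0 := by exact_mod_cast hn
        field_simp
        rw [mul_comm, Complex.mul_conj, Complex.normSq_eq_norm_sq]
        push_cast; ring
      rw [this, Complex.ofReal_im]

/-- Toeplitz-Hausdorff: the numerical range of a bounded operator on a subspace is convex. -/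
theorem convex_numRange (K : Submodule ℂ H) (T : H →L[ℂ] H) :
    Convex ℝ {w : ℂ | ∃ v ∈ K, ‖v‖ = 1 ∧ inner ℂ v (T v) = w} := by
  rw [convex_iff_forall_pos]
  rintro a ⟨x, hxK, hx1, hxa⟩ b ⟨y, hyK, hy1, hyb⟩ s t hs ht hst
  by_cases hab : a = b
  · subst hab
    refine ⟨x, hxK, hx1, ?_⟩
    rw [hxa, ← add_smul, hst, one_smul]
  have hba : b - a ≠ 0 := sub_ne_zero.mpr (Ne.symm hab)
  obtain ⟨z, hz1, c, hc⟩ := exists_unimodular_real
    ((inner ℂ x (T y) - a * inner ℂ x y) / (b - a)) ((inner ℂ y (T x) - a * inner ℂ y x) / (b - a))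
  have hzz : (starRingEnd ℂ) z * z = 1 := by
    rw [mul_comm, Complex.mul_conj, Complex.normSq_eq_norm_sq, hz1]; simp
  have hxx : inner ℂ x x = (1 : ℂ) := by rw [inner_self_eq_norm_sq_to_K, hx1]; simp
  have hyy : inner ℂ y y = (1 : ℂ) := by rw [inner_self_eq_norm_sq_to_K, hy1]; simp
  set V : ℝ → H := fun r => ((1 - r : ℝ) : ℂ) • x + ((r : ℂ) * z) • y with hV
  have hVK : ∀ r, V r ∈ K := fun r => K.add_mem (K.smul_mem _ hxK) (K.smul_mem _ hyK)
  have hc' : z * (inner ℂ x (T y) - a * inner ℂ x y)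
      + (starRingEnd ℂ) z * (inner ℂ y (T x) - a * inner ℂ y x) = c * (b - a) := by
    rw [← hc]; field_simp
  have hq : ∀ r : ℝ, inner ℂ (V r) (T (V r)) - a * inner ℂ (V r) (V r) =
      (b - a) * ((r ^ 2 + (1 - r) * r * c : ℝ) : ℂ) := by
    intro r
    simp only [hV, map_add, map_smul, inner_add_left, inner_add_right, inner_smul_left,
      inner_smul_right, hxa, hyb, hxx, hyy, map_mul, Complex.conj_ofReal]
    push_cast
    linear_combination ((1 - (r : ℂ)) * r) * hc' + ((r : ℂ) ^ 2 * (b - a)) * hzz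
  have hV0 : ∀ r : ℝ, V r ≠ 0 := by
    intro r hr
    -- then x and y are proportional
    have h1 : ((1 - r : ℝ) : ℂ) • x = -(((r : ℂ) * z) • y) := eq_neg_of_add_eq_zero_left hr
    have hxs : inner ℂ (((1 - r : ℝ) : ℂ) • x) (T (((1 - r : ℝ) : ℂ) • x)) =
        (((1 - r) ^ 2 : ℝ) : ℂ) * a := by
      simp only [map_smul, inner_smul_left, inner_smul_right, hxa, Complex.conj_ofReal]
      push_cast; ring
    have hys : inner ℂ (-(((r : ℂ) * z) • y)) (T (-(((r : ℂ) * z) • y))) =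
        ((r ^ 2 : ℝ) : ℂ) * b := by
      simp only [map_neg, inner_neg_neg, map_smul, inner_smul_left, inner_smul_right, hyb, map_mul,
        Complex.conj_ofReal]
      push_cast
      linear_combination ((r : ℂ) ^ 2 * b) * hzz
    have hnx : ‖((1 - r : ℝ) : ℂ) • x‖ ^ 2 = (1 - r) ^ 2 := by
      rw [norm_smul, hx1, Complex.norm_real, Real.norm_eq_abs, mul_one, sq_abs]
    have hny : ‖-(((r : ℂ) * z) • y)‖ ^ 2 = r ^ 2 := by
      rw [norm_neg, norm_smul, hy1, norm_mul, hz1, Complex.norm_real, Real.norm_eq_abs, mul_one,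
        mul_one, sq_abs]
    rw [h1, hny] at hnx
    rw [h1, hys, hnx] at hxs
    have hr0 : ((1 - r) ^ 2 : ℝ) ≠ 0 := by
      intro h0
      rw [h0] at hnx
      have e1 : 1 - r = 0 := by simpa using h0
      have e2 : r = 0 := by simpa using hnx
      linarith
    have : b = a := mul_left_cancel₀ (by exact_mod_cast hr0) hxs
    exact hab this.symm
  have hn0 : ∀ r : ℝ, ‖V r‖ ^ 2 ≠ 0 := fun r => pow_ne_zero 2 (norm_ne_zero_iff.mpr (hV0 r))
  have hVc : Continuous V := by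
    simp only [hV]
    fun_prop
  set F : ℝ → ℝ := fun r => (r ^ 2 + (1 - r) * r * c) / ‖V r‖ ^ 2 with hF
  have hFc : Continuous F := by
    simp only [hF]
    exact Continuous.div (by fun_prop) (by fun_prop) hn0
  have hF0 : F 0 = 0 := by simp [hF]
  have hF1 : F 1 = 1 := by
    have : ‖V 1‖ = 1 := by
      simp [hV, norm_smul, hz1, hy1]
    simp [hF, this]
  have hivt := intermediate_value_Icc (zero_le_one' ℝ) hFc.continuousOn
  rw [hF0, hF1] at hivt
  obtain ⟨r, -, hr⟩ := hivt (show t ∈ Set.Icc (0 : ℝ) 1 from ⟨ht.le, by linarith⟩)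
  have hnr : (‖V r‖ : ℂ) ≠ 0 := by exact_mod_cast norm_ne_zero_iff.mpr (hV0 r)
  refine ⟨((‖V r‖⁻¹ : ℝ) : ℂ) • V r, K.smul_mem _ (hVK r), ?_, ?_⟩
  · rw [norm_smul, Complex.norm_real, norm_inv, norm_norm,
      inv_mul_cancel₀ (norm_ne_zero_iff.mpr (hV0 r))]
  · have e1 : inner ℂ (V r) (T (V r)) = a * ((‖V r‖ ^ 2 : ℝ) : ℂ) +
        (b - a) * ((r ^ 2 + (1 - r) * r * c : ℝ) : ℂ) := by
      have hself : inner ℂ (V r) (V r) = ((‖V r‖ ^ 2 : ℝ) : ℂ) := by
        rw [inner_self_eq_norm_sq_to_K]; push_cast; rfl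
      linear_combination hq r + a * hself
    have e2 : ((r ^ 2 + (1 - r) * r * c : ℝ) : ℂ) = ((‖V r‖ ^ 2 : ℝ) : ℂ) * (t : ℂ) := by
      rw [← Complex.ofReal_mul]
      congr 1
      rw [← hr]
      show _ = ‖V r‖ ^ 2 * ((r ^ 2 + (1 - r) * r * c) / ‖V r‖ ^ 2)
      rw [← mul_div_assoc, mul_div_cancel_left₀ _ (hn0 r)]
    have e3 : (s : ℂ) = 1 - t := by
      have : s = 1 - t := by linarith
      rw [this]; push_cast; ring
    simp only [map_smul, inner_smul_left, inner_smul_right, Complex.conj_ofReal, e1, e2,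
      Complex.real_smul, e3]
    push_cast
    field_simp
    ring

theorem exists_phase (K : Submodule ℂ H) (T : H →L[ℂ] H) (κ : ℝ) (hκ : 0 < κ)
    (h : ∀ v ∈ K, κ * ‖v‖ ^ 2 ≤ ‖inner ℂ v (T v)‖) :
    ∃ ζ : ℂ, ‖ζ‖ = 1 ∧ ∀ v ∈ K, κ * ‖v‖ ^ 2 ≤ (ζ * inner ℂ v (T v)).re := by
  set W : Set ℂ := {w : ℂ | ∃ v ∈ K, ‖v‖ = 1 ∧ inner ℂ v (T v) = w} with hW
  have hdisj : Disjoint (Metric.ball (0 : ℂ) κ) W := by
    rw [Set.disjoint_left]
    rintro w hw ⟨v, hvK, hv1, hvw⟩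
    have := h v hvK
    rw [hv1, hvw] at this
    simp at hw this
    linarith
  obtain ⟨f, u, hf1, hf2⟩ := geometric_hahn_banach_open (convex_ball (0 : ℂ) κ) Metric.isOpen_ball
    (convex_numRange K T) hdisj
  set ζ' : ℂ := ⟨f 1, -f Complex.I⟩ with hζ'
  have hfz : ∀ w : ℂ, f w = (ζ' * w).re := by
    intro w
    have e : w = w.re • (1 : ℂ) + w.im • Complex.I := by
      apply Complex.ext <;> simp
    conv_lhs => rw [e]
    rw [map_add, map_smul, map_smul]
    simp [hζ', Complex.mul_re]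
    ring
  by_cases hW0 : W.Nonempty
  swap
  · refine ⟨1, by simp, fun v hv => ?_⟩
    have hv0 : v = 0 := by
      by_contra hne
      apply hW0
      refine ⟨_, ((‖v‖⁻¹ : ℝ) : ℂ) • v, K.smul_mem _ hv, ?_, rfl⟩
      rw [norm_smul, Complex.norm_real, norm_inv, norm_norm,
        inv_mul_cancel₀ (norm_ne_zero_iff.mpr hne)]
    simp [hv0]
  obtain ⟨w₀, hw₀⟩ := hW0
  have hu : 0 < u := by
    have := hf1 0 (Metric.mem_ball_self hκ)
    simpa using this
  have hζ0 : ζ' ≠ 0 := by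
    intro h0
    have := hf2 w₀ hw₀
    rw [hfz, h0] at this
    simp at this
    linarith
  have hnζ : 0 < ‖ζ'‖ := norm_pos_iff.mpr hζ0
  have hκu : κ * ‖ζ'‖ ≤ u := by
    refine le_of_forall_lt fun c hc => ?_
    by_cases hc0 : c ≤ 0
    · exact lt_of_le_of_lt hc0 hu
    push Not at hc0
    have hmem : ((c / ‖ζ'‖ ^ 2 : ℝ) : ℂ) * (starRingEnd ℂ) ζ' ∈ Metric.ball (0 : ℂ) κ := by
      rw [Metric.mem_ball, dist_zero_right, norm_mul, Complex.norm_real, RCLike.norm_conj,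
        Real.norm_eq_abs, abs_of_pos (by positivity)]
      rw [div_mul_eq_mul_div, div_lt_iff₀ (by positivity)]
      nlinarith
    have := hf1 _ hmem
    rw [hfz] at this
    have e : ζ' * (((c / ‖ζ'‖ ^ 2 : ℝ) : ℂ) * (starRingEnd ℂ) ζ') = ((c : ℝ) : ℂ) := by
      rw [mul_left_comm, Complex.mul_conj, Complex.normSq_eq_norm_sq, ← Complex.ofReal_mul,
        div_mul_cancel₀ _ (by positivity)]
    rw [e, Complex.ofReal_re] at this
    exact this
  refine ⟨ζ' / (‖ζ'‖ : ℂ), ?_, fun v hv => ?_⟩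
  · rw [norm_div, Complex.norm_real, norm_norm, div_self hnζ.ne']
  · by_cases hv0 : v = 0
    · simp [hv0]
    have hnv : 0 < ‖v‖ := norm_pos_iff.mpr hv0
    have hmem : inner ℂ (((‖v‖⁻¹ : ℝ) : ℂ) • v) (T (((‖v‖⁻¹ : ℝ) : ℂ) • v)) ∈ W := by
      refine ⟨((‖v‖⁻¹ : ℝ) : ℂ) • v, K.smul_mem _ hv, ?_, rfl⟩
      rw [norm_smul, Complex.norm_real, norm_inv, norm_norm, inv_mul_cancel₀ hnv.ne']
    have h1 := hκu.trans (hf2 _ hmem)
    rw [hfz] at h1
    have e : ζ' * inner ℂ (((‖v‖⁻¹ : ℝ) : ℂ) • v) (T (((‖v‖⁻¹ : ℝ) : ℂ) • v)) =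
        (((‖v‖ ^ 2)⁻¹ : ℝ) : ℂ) * (ζ' * inner ℂ v (T v)) := by
      simp only [map_smul, inner_smul_left, inner_smul_right, Complex.conj_ofReal]
      push_cast; ring
    rw [e, Complex.re_ofReal_mul] at h1
    have e2 : ζ' / (‖ζ'‖ : ℂ) * inner ℂ v (T v) =
        ((‖ζ'‖⁻¹ : ℝ) : ℂ) * (ζ' * inner ℂ v (T v)) := by
      push_cast; ring
    rw [e2, Complex.re_ofReal_mul]
    have h2 : κ * ‖v‖ ^ 2 * ‖ζ'‖ ≤ (ζ' * inner ℂ v (T v)).re := by
      rw [inv_mul_eq_div, le_div_iff₀ (by positivity)] at h1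
      linarith
    rw [inv_mul_eq_div, le_div_iff₀ hnζ]
    exact h2

end D_TH

end Pool.Agent.helper23.RK
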